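import Pool.Agent.KS6_90.CFO.D

/-!
# MP_52937b_lc, Q1: the answer is NO for every o-minimal theory of ordered groups

Q1 asks whether, for `T` o-minimal, `M ≺ 𝔘` small, `p` a global `M`-invariant `1`-type with small
cofinality on the right and `b ⊨ p`, the set `p(dcl(Mb))` is always cofinal in `p(dcl(𝔘b))`.

We prove that this fails for EVERY complete o-minimal theory `T` in a countable language that
extends the theory of ordered groups (the group operation being named by a function symbol), in
every `κ`-saturated model of `T`, `κ > ℵ₀`.

Proof. Let `M` be a countable elementary substructure. All partial functions defined over `M` are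
listed, and a decreasing sequence of intervals `(a n, b n)` with end points in `M` is built such
that the `n`-th function is on `(a n, b n)` the identity or leaves this interval: if it moves
infinitely many points of an interval then by saturation it moves infinitely many points by more
than some `ε > 0`, so by o-minimality it moves all points of some interval, shorter than `ε`, by
more than `ε`; the resulting statement has parameters in `M`, so the interval can be found in `M`.
Let `p` be the type of an element just below all `b n`. Then `b` is the only realisation of `p` in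
`dcl(Mb)`, but `b + ε` realises `p` if `ε > 0` is small.

The definitions `Lt`, `OMinStr`, `OMinimal`, `Saturated`, `tp`, `IsGlobalType`, `Invariant`,
`RightSet`, `SmallRight`, `dcl`, `CofinalityProperty` are in `Pool/Agent/R466/OM/Defs.lean` (earlier
result `CofinalityFails`, which treats one theory); `OrdGroup` is in `Pool/Agent/KS6_90/CFO/A.lean`.
-/

set_option autoImplicit false

open FirstOrder FirstOrder.Language Cardinal Pool.Agent.R466.OM Pool.Agent.KS6_90.CFO

namespace Pool.Agent.Results.MP_52937b_lc.EveryOrderedGroup

universe u

theorem ordGroup_TQ (N : Type u) [OV.Structure N] [Nonempty N] (hN : N ⊨ TQ) :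
    OrdGroup (L := OV) ltSym (OVFun.add : OV.Functions 2) N := by
  obtain ⟨i1, i2, i3, i4, i5, i6⟩ := exists_inst hN
  have had : ∀ x y : N, ad (L := OV) (OVFun.add : OV.Functions 2) N x y = x + y :=
    fun x y => IsOV.add ![x, y]
  refine ⟨fun x y z => ?_, ⟨0, fun x => ⟨?_, ?_, -x, ?_, ?_⟩⟩, fun x y w h => ?_⟩
  · rw [had, had, had, had, add_assoc]
  · rw [had, zero_add]
  · rw [had, add_zero]
  · rw [had, add_neg_cancel]
  · rw [had, neg_add_cancel]
  · rw [had, had, had, had, Lt_iff, Lt_iff]
    rw [Lt_iff] at h
    exact ⟨add_lt_add_left h w, add_lt_add_right h w⟩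

theorem card_OV : OV.card ≤ ℵ₀ := by
  have h1 : Countable (Σ n, OV.Functions n) := by
    have : Function.Injective (fun s : (Σ n, OVFun n) => (match s with
      | ⟨_, .zero⟩ => (0, 0)
      | ⟨_, .smul q⟩ => (1, q)
      | ⟨_, .add⟩ => (2, 0) : ℕ × ℚ)) := by
      rintro ⟨n, s⟩ ⟨m, t⟩ h
      cases s <;> cases t <;> simp_all
    exact this.countable
  have h2 : Countable (Σ n, OV.Relations n) := by
    have : Function.Injective (fun _ : (Σ n, OVRel n) => (0 : ℕ)) := by
      rintro ⟨n, s⟩ ⟨m, t⟩ _
      cases s; cases t; rfl
    exact this.countable
  have h3 : Countable OV.Symbols := inferInstanceAs (Countable (_ ⊕ _))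
  exact Cardinal.mk_le_aleph0_iff.2 h3

/-- **Q1 of MP_52937b_lc fails for all o-minimal theories of ordered groups.** Let `T` be a complete
o-minimal theory in a countable language, such that a binary function symbol is a group operation
with increasing translations in all models of `T`. Then for every cardinal `κ > ℵ₀` and every
`κ`-saturated model `U` of `T` there are an elementary substructure `M` of `U` of cardinality
`< κ`, a global `M`-invariant `1`-type `p` with small cofinality on the right, and a realisation `b`
of `p` in an elementary extension `V` of `U` such that `p(dcl(Mb))` is not cofinal in `p(dcl(Ub))`.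
Moreover there is such a theory (that of the ordered rational vector space `ℚ`). -/
theorem result :
    (∀ (L : FirstOrder.Language.{0, 0}) (lt : L.Relations 2) (add : L.Functions 2) (T : L.Theory),
      L.card ≤ ℵ₀ → OMinimal.{u} lt T →
      (∀ (N : Type u) [L.Structure N] [Nonempty N], N ⊨ T → OrdGroup lt add N) →
      ∀ (κ : Cardinal.{u}) (U : Type u) [L.Structure U] [Nonempty U], ℵ₀ < κ → U ⊨ T →
        Saturated L κ U → ¬ CofinalityProperty lt κ U) ∧
    ∃ (L : FirstOrder.Language.{0, 0}) (lt : L.Relations 2) (add : L.Functions 2) (T : L.Theory),
      L.card ≤ ℵ₀ ∧ OMinimal.{u} lt T ∧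
      ∀ (N : Type u) [L.Structure N] [Nonempty N], N ⊨ T → OrdGroup lt add N :=
  ⟨fun _ lt add _ hL hT hg _ U _ _ hκ hUT hU => main lt add hL hT hg hκ U hUT hU,
    OV, ltSym, OVFun.add, TQ, card_OV, omin_TQ, fun N _ _ hN => ordGroup_TQ N hN⟩

end Pool.Agent.Results.MP_52937b_lc.EveryOrderedGroup
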